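import Pool.Agent.X212.Stab.Main

set_option autoImplicit false

/-!
# Uniqueness of tight (k,0)-stable graphs for large k

`MP_476b05_co`, Q1: there is a positive integer `k₀` such that for every `k ≥ k₀` every tight
`(k, 0)`-stable graph is isomorphic to `K_{k+1}` or to `K_{k+2}`.

Proof.  *Step 1.* The tight `(4, 0)`-stable graphs have bounded order.  Let `G` be one, with
independence number `α`, and `H` an edge-minimal spanning subgraph with independence number `α`.
Let `S` be a maximum independent set.  There is a matching `s ↦ m(s)` of `S` into the complement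
`T` of `S`, and it misses at most four vertices of `T`.  For every edge `ab` of `H` inside `T` there
is a set of `α + 1` vertices whose only edge is `ab`; its part in `T` has more vertices than
neighbours in `S`.  Many disjoint edges inside `T` would give (by Ramsey's theorem and an uncrossing
argument) a subset of `T` with at least five vertices more than neighbours in `S`, which contradicts
the matching.  Hence the edges inside `T` are covered by a bounded set, and so the graph is
bipartite outside a bounded set `W ⊆ T`.  For every trace `I ∩ W` of a maximum independent set, a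
structure argument on the graph outside `W` gives each `s ∈ S` one of at most five labels such that
no two matching edges with equal labels are both missed by a maximum independent set with this
trace.  If `α` is large, two matching edges have the same labels for all traces, but there is a
maximum independent set that avoids the four ends of these two edges, a contradiction.

*Step 2.* Let `G` be tight `(k, 0)`-stable with `α(G) = α ≥ 2`.  Deleting `k - 4` vertices leaves a
tight `(4, 0)`-stable graph with the same independence number, so `α` is bounded.  All sets of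
`2 α` vertices contain an independent set of size `α`, so the graph has no clique of size `α + 2`,
and Ramsey's theorem bounds its order, hence `k`.
-/

namespace Pool.Agent.Results.MP_476b05_co.LargeK

open Finset

/-- `G` is `(k, l)`-stable: for every choice of `k` vertices `v 0, …, v (k - 1)`, the graph
`G ∖ {v 0, …, v (k - 1)}` has independence number at least `α(G) - l`. -/
def IsStable {V : Type} (G : SimpleGraph V) (k l : ℕ) : Prop :=
  ∀ v : Fin k → V, G.indepNum ≤ (G.induce {x | ∀ i, v i ≠ x}).indepNum + l

/-- `G` is tight `(k, 0)`-stable: it is `(k, 0)`-stable and `α(G) = ⌊(n - k + 1) / 2⌋`, where `n` is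
the number of vertices (an equation of integers). -/
def IsTightStable {V : Type} [Fintype V] (G : SimpleGraph V) (k : ℕ) : Prop :=
  IsStable G k 0 ∧ (G.indepNum : ℤ) = ((Fintype.card V : ℤ) - k + 1) / 2

open Pool.Agent.X212.Stab in
lemma bounded_indepNum (a : ℕ) : ∃ k₀ : ℕ, ∀ k ≥ k₀, ∀ (V : Type) [Fintype V] [Nonempty V]
    (G : SimpleGraph V), TightStable k G → G.indepNum ≤ a →
      Nonempty (G ≃g (⊤ : SimpleGraph (Fin (k + 1)))) ∨
      Nonempty (G ≃g (⊤ : SimpleGraph (Fin (k + 2)))) := by
  classical
  obtain ⟨R, hR⟩ := ramsey (a + 2) (a + 1)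
  refine ⟨R, fun k hk V _ _ G hG ha => ?_⟩
  have h1 := lt_card hG.1
  have h2 := tight_card hG
  have h3 := indepNum_pos G
  by_cases h4 : 2 ≤ G.indepNum
  · exfalso
    rcases hR V G univ (by rw [card_univ]; omega) with ⟨A, _, hc, hcl⟩ | ⟨B, _, hc, hi⟩
    · have := clique_le hG h4 hcl
      omega
    · have := hi.card_le_indepNum
      omega
  · have h5 : G = ⊤ := eq_top (by omega)
    subst h5
    rcases h2 with h2 | h2
    · left
      exact ⟨SimpleGraph.Iso.completeGraph (Fintype.equivFinOfCardEq (by omega))⟩
    · right
      exact ⟨SimpleGraph.Iso.completeGraph (Fintype.equivFinOfCardEq (by omega))⟩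

open Pool.Agent.X212.Stab in
lemma tight_of {V : Type} [Fintype V] [Nonempty V] {G : SimpleGraph V} {k : ℕ}
    (h : IsTightStable G k) : TightStable k G := by
  classical
  obtain ⟨h1, h2⟩ := h
  have h3 := indepNum_pos G
  refine ⟨(stable_iff G k).2 fun X hX => ?_, by omega⟩
  obtain ⟨v, hv⟩ : ∃ v : Fin k → V, ∀ x ∈ X, ∃ i, v i = x := by
    obtain ⟨d⟩ := ‹Nonempty V›
    refine ⟨fun i => if hi : i.1 < X.card then (X.equivFin.symm ⟨i.1, hi⟩).1 else d, fun x hx => ?_⟩
    refine ⟨⟨(X.equivFin ⟨x, hx⟩).1, (X.equivFin ⟨x, hx⟩).2.trans_le hX⟩, ?_⟩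
    have hlt : (X.equivFin ⟨x, hx⟩).1 < X.card := (X.equivFin ⟨x, hx⟩).2
    simp only [dif_pos hlt, Fin.eta, Equiv.symm_apply_apply]
  have h4 := h1 v
  have hset : {x | ∀ i, v i ≠ x} = {x | x ∉ (univ : Finset (Fin k)).image v} := by
    ext x
    simp
  rw [hset, Nat.add_zero, le_induce_iff] at h4
  obtain ⟨I, hI, hIX, hc⟩ := h4
  refine ⟨I, hI, fun x hxI hxX => hIX x hxI ?_, hc⟩
  obtain ⟨i, hi⟩ := hv x hxX
  exact mem_image.2 ⟨i, mem_univ i, hi⟩

/-- **Q1 has a positive answer.** There is a positive integer `k₀` such that for every `k ≥ k₀`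
every tight `(k, 0)`-stable finite graph is isomorphic to `K_{k+1}` or to `K_{k+2}`. -/
theorem result : ∃ k₀ : ℕ, 0 < k₀ ∧ ∀ k : ℕ, k₀ ≤ k → ∀ (V : Type) [Fintype V]
    (G : SimpleGraph V), IsTightStable G k →
      Nonempty (G ≃g (⊤ : SimpleGraph (Fin (k + 1)))) ∨
      Nonempty (G ≃g (⊤ : SimpleGraph (Fin (k + 2)))) := by
  obtain ⟨N, hN⟩ := Pool.Agent.X212.Stab.bounded4
  obtain ⟨k₀, hk₀⟩ := bounded_indepNum N
  refine ⟨max k₀ 4, by omega, fun k hk V _ G hG => ?_⟩
  rcases isEmpty_or_nonempty V with hV | hV
  · exfalso
    have h1 := hG.2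
    rw [Fintype.card_eq_zero] at h1
    omega
  · have hG' := tight_of hG
    obtain ⟨W, hW, hWn, H, hH, hc⟩ := Pool.Agent.X212.Stab.tight_induce hG'
      ((le_max_right k₀ 4).trans hk)
    have h1 := hN W H hH
    have h2 := Pool.Agent.X212.Stab.tight_card hG'
    have h3 : 0 < Fintype.card W := Fintype.card_pos
    exact hk₀ k ((le_max_left k₀ 4).trans hk) V G hG' (by omega)

end Pool.Agent.Results.MP_476b05_co.LargeK
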